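import Pool.Agent.helper81.PJ.Spec

set_option autoImplicit false

open Finset

namespace Pool.Agent.PJ

open Pool.Agent.PY2

theorem SPA_num (p q P a N X Y s2 U D Bc M S : ℝ) (hq : 0 < q) (hqp : q ^ 3 = p)
    (hP : 1 ≤ P) (ha : 0 < a) (haq : a ≤ q) (hpa : p ≤ 8 * a ^ 3) (hN : 0 < N) (hX : 0 < X) (hY : 0 < Y)
    (hs2 : 0 < s2) (hU : 0 < U) (hNU : N ≤ 4 * a * U) (hD : D ≤ 6 * s2 * N * P / X)
    (hB : Bc ≤ 4 * Y) (hB0 : 0 ≤ Bc) (hM0 : 0 ≤ M)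
    (hM : 56 * 10 ^ 12 * 4 ^ 11 * M ≤ P ^ 3)
    (h1 : N ^ 6 * P ^ 9 ≤ X ^ 6 * Y) (h2 : s2 * N ^ 5 * (q ^ 4 * P ^ 10) ≤ X ^ 7 * Y ^ 2)
    (hS : a ^ 3 * S ^ 6 ≤ 10 ^ 12 * M * (p * N ^ 6 * Bc ^ 11 + D * p ^ 2 * N ^ 5 * Bc ^ 10 / U)) :
    S ^ 6 ≤ (X * Y ^ 2 / P) ^ 6 := by
  have hp : 0 < p := by rw [← hqp]; positivity
  have hP0 : 0 < P := by linarith
  -- first term
  have e1 : p * N ^ 6 * Bc ^ 11 ≤ p * N ^ 6 * (4 ^ 11 * Y ^ 11) := by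
    have : Bc ^ 11 ≤ (4 * Y) ^ 11 := pow_le_pow_left₀ hB0 hB 11
    rw [mul_pow] at this
    exact mul_le_mul_of_nonneg_left this (by positivity)
  have hDU : D / U ≤ 24 * s2 * P * a / X := by
    rw [div_le_iff₀ hU]
    refine hD.trans ?_
    rw [div_mul_eq_mul_div, div_le_div_iff_of_pos_right hX]
    calc 6 * s2 * N * P = 6 * s2 * P * N := by ring
      _ ≤ 6 * s2 * P * (4 * a * U) := mul_le_mul_of_nonneg_left hNU (by positivity)
      _ = 24 * s2 * P * a * U := by ring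
  have e2 : D * p ^ 2 * N ^ 5 * Bc ^ 10 / U ≤ (24 * s2 * P * a / X) * (p ^ 2 * N ^ 5 * (4 ^ 10 * Y ^ 10)) := by
    have hb : Bc ^ 10 ≤ 4 ^ 10 * Y ^ 10 := by
      have : Bc ^ 10 ≤ (4 * Y) ^ 10 := pow_le_pow_left₀ hB0 hB 10
      rwa [mul_pow] at this
    calc D * p ^ 2 * N ^ 5 * Bc ^ 10 / U = (D / U) * (p ^ 2 * N ^ 5 * Bc ^ 10) := by ring
      _ ≤ (24 * s2 * P * a / X) * (p ^ 2 * N ^ 5 * Bc ^ 10) :=
          mul_le_mul_of_nonneg_right hDU (by positivity)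
      _ ≤ (24 * s2 * P * a / X) * (p ^ 2 * N ^ 5 * (4 ^ 10 * Y ^ 10)) := by
          apply mul_le_mul_of_nonneg_left _ (by positivity)
          exact mul_le_mul_of_nonneg_left hb (by positivity)
  -- third
  have e3 : p / 8 * S ^ 6 ≤ 10 ^ 12 * M * (p * N ^ 6 * (4 ^ 11 * Y ^ 11) +
      (24 * s2 * P * a / X) * (p ^ 2 * N ^ 5 * (4 ^ 10 * Y ^ 10))) := by
    have h0 : 0 ≤ S ^ 6 := by positivity
    calc p / 8 * S ^ 6 ≤ a ^ 3 * S ^ 6 := mul_le_mul_of_nonneg_right (by linarith) h0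
      _ ≤ _ := hS
      _ ≤ _ := mul_le_mul_of_nonneg_left (add_le_add e1 e2) (by positivity)
  have e4 : S ^ 6 ≤ 8 * 10 ^ 12 * 4 ^ 11 * M * (N ^ 6 * Y ^ 11 + 6 * (s2 * P * (a * p) * N ^ 5 * Y ^ 10 / X)) := by
    have h8 : 0 < 8 / p := by positivity
    have := mul_le_mul_of_nonneg_left e3 h8.le
    have l : 8 / p * (p / 8 * S ^ 6) = S ^ 6 := by field_simp
    rw [l] at this
    refine this.trans (le_of_eq ?_)
    field_simp
    ring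
  have hap : a * p ≤ q ^ 4 := by
    rw [← hqp]
    calc a * q ^ 3 ≤ q * q ^ 3 := mul_le_mul_of_nonneg_right haq (by positivity)
      _ = q ^ 4 := by ring
  have e5 : s2 * P * (a * p) * N ^ 5 * Y ^ 10 / X ≤ X ^ 6 * Y ^ 12 / P ^ 9 := by
    rw [div_le_div_iff₀ hX (by positivity)]
    calc s2 * P * (a * p) * N ^ 5 * Y ^ 10 * P ^ 9
        = (a * p) * (s2 * P ^ 10 * N ^ 5 * Y ^ 10) := by ring
      _ ≤ q ^ 4 * (s2 * P ^ 10 * N ^ 5 * Y ^ 10) := mul_le_mul_of_nonneg_right hap (by positivity)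
      _ = (s2 * N ^ 5 * (q ^ 4 * P ^ 10)) * Y ^ 10 := by ring
      _ ≤ (X ^ 7 * Y ^ 2) * Y ^ 10 := mul_le_mul_of_nonneg_right h2 (by positivity)
      _ = X ^ 6 * Y ^ 12 * X := by ring
  have e6 : N ^ 6 * Y ^ 11 ≤ X ^ 6 * Y ^ 12 / P ^ 9 := by
    rw [le_div_iff₀ (by positivity)]
    calc N ^ 6 * Y ^ 11 * P ^ 9 = (N ^ 6 * P ^ 9) * Y ^ 11 := by ring
      _ ≤ (X ^ 6 * Y) * Y ^ 11 := mul_le_mul_of_nonneg_right h1 (by positivity)
      _ = X ^ 6 * Y ^ 12 := by ring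
  have e7 : S ^ 6 ≤ 8 * 10 ^ 12 * 4 ^ 11 * M * (7 * (X ^ 6 * Y ^ 12 / P ^ 9)) := by
    refine e4.trans (mul_le_mul_of_nonneg_left ?_ (by positivity))
    linarith
  have e8 : 8 * 10 ^ 12 * 4 ^ 11 * M * (7 * (X ^ 6 * Y ^ 12 / P ^ 9)) ≤ P ^ 3 * (X ^ 6 * Y ^ 12 / P ^ 9) := by
    have : 8 * 10 ^ 12 * 4 ^ 11 * M * (7 * (X ^ 6 * Y ^ 12 / P ^ 9))
        = (56 * 10 ^ 12 * 4 ^ 11 * M) * (X ^ 6 * Y ^ 12 / P ^ 9) := by ring
    rw [this]
    exact mul_le_mul_of_nonneg_right hM (by positivity)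
  refine (e7.trans e8).trans (le_of_eq ?_)
  field_simp

theorem SPA (hSSQ : SSQ_stmt) (hSPQ : SPQ_stmt) (hCEL : CEL_stmt) (hDIV : DIV_stmt) : SPA_stmt := by
  intro κ hκ
  obtain ⟨C, hC, hdiv⟩ := hDIV (κ / 2) (by positivity)
  set c : ℝ := 14 / (κ * Real.log 2) + 1 with hc
  have hlog2 : 0 < Real.log 2 := Real.log_pos (by norm_num)
  have hcpos : 0 < c := by rw [hc]; positivity
  set K : ℝ := 56 * 10 ^ 12 * 4 ^ 11 with hK
  have hKpos : 0 < K := by rw [hK]; norm_num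
  set Q0 : ℝ := max 2 (K * (C * c ^ 7)) with hQ0
  have hQ02 : 2 ≤ Q0 := le_max_left _ _
  have hQ0K : K * (C * c ^ 7) ≤ Q0 := le_max_right _ _
  have hQ0pos : 0 < Q0 := by linarith
  refine ⟨⌈Q0 ^ (1 / κ)⌉₊, ?_⟩
  intro p hpp hp0 N L s X Y A B hAN hX hY hA hB hL hsL hNL h72 hN3 h1 h2 hcell χ hχ β hβ
  have hp1 : (1 : ℝ) < p := by exact_mod_cast hpp.out.one_lt
  have hp0' : (0 : ℝ) < p := by linarith
  have hpQ : Q0 ^ (1 / κ) ≤ p := (Nat.le_ceil _).trans (by exact_mod_cast hp0.le)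
  set P : ℝ := (p : ℝ) ^ κ with hPdef
  have hPQ : Q0 ≤ P := by
    have h := Real.rpow_le_rpow (by positivity) hpQ hκ.le
    rw [← Real.rpow_mul hQ0pos.le] at h
    have e : 1 / κ * κ = 1 := by field_simp
    rw [e, Real.rpow_one] at h
    exact h
  have hP2 : 2 ≤ P := hQ02.trans hPQ
  have hP1 : 1 ≤ P := by linarith
  have hP0 : 0 < P := by linarith
  set q : ℝ := (p : ℝ) ^ (1 / 3 : ℝ) with hqdef
  have hq : 0 < q := by positivity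
  have hqp : q ^ 3 = p := by
    rw [hqdef, ← Real.rpow_natCast, ← Real.rpow_mul hp0'.le]
    norm_num
  -- the exponent n
  set n : ℕ := Nat.log 8 p with hn
  have hpne : p ≠ 0 := hpp.out.ne_zero
  have h8n : 8 ^ n ≤ p := Nat.pow_log_le_self 8 hpne
  have h8n' : p < 8 ^ (n + 1) := Nat.lt_pow_succ_log_self (by norm_num) p
  have h2n3 : (2 ^ n) ^ 3 ≤ p := by
    have : (2 ^ n) ^ 3 = 8 ^ n := by rw [← pow_mul, mul_comm, pow_mul]; norm_num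
    rw [this]; exact h8n
  set a : ℝ := (2 : ℝ) ^ n with ha
  have hapos : 0 < a := by positivity
  have ha1 : 1 ≤ a := one_le_pow₀ (by norm_num)
  have ha3 : a ^ 3 = (8 : ℝ) ^ n := by
    rw [ha, ← pow_mul, mul_comm, pow_mul]; norm_num
  have haq : a ≤ q := by
    have h : a ^ 3 ≤ q ^ 3 := by
      rw [hqp, ha3]; exact_mod_cast h8n
    exact le_of_pow_le_pow_left₀ (by norm_num) hq.le h
  have hpa : (p : ℝ) ≤ 8 * a ^ 3 := by
    rw [ha3]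
    have : (p : ℝ) < (8 : ℝ) ^ (n + 1) := by exact_mod_cast h8n'
    rw [pow_succ] at this
    linarith
  -- N is large
  have hNq : q * P ≤ N := by
    have : (p : ℝ) ^ (1 / 3 + κ) = q * P := by rw [Real.rpow_add hp0']
    rw [← this]; exact hN3
  have hN2a : 2 * a ≤ N := by
    calc 2 * a = a * 2 := by ring
      _ ≤ q * P := mul_le_mul haq hP2 (by norm_num) hq.le
      _ ≤ N := hNq
  have hNpos : (0 : ℝ) < N := by linarith
  have hNnat : 2 * 2 ^ n ≤ N := by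
    have : (2 : ℝ) * (2 : ℝ) ^ n ≤ N := hN2a
    exact_mod_cast this
  set U : ℕ := N / (2 * 2 ^ n) with hU
  have hUpos : 0 < U := Nat.div_pos hNnat (by positivity)
  have hUle : 2 ^ n * (2 * U) ≤ N := by
    have := Nat.div_mul_le_self N (2 * 2 ^ n)
    calc 2 ^ n * (2 * U) = U * (2 * 2 ^ n) := by ring
      _ ≤ N := this
  have hNU : (N : ℝ) ≤ 4 * a * U := by
    have h3 : N < (2 * 2 ^ n) * (U + 1) := by
      have := Nat.lt_mul_div_succ N (show 0 < 2 * 2 ^ n by positivity)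
      exact this
    have h4 : (2 * 2 ^ n) * (U + 1) ≤ (2 * 2 ^ n) * (2 * U) := Nat.mul_le_mul_left _ (by omega)
    have h5 : N ≤ (2 * 2 ^ n) * (2 * U) := h3.le.trans h4
    have h6 : (N : ℝ) ≤ (2 * 2 ^ n) * (2 * U) := by exact_mod_cast h5
    calc (N : ℝ) ≤ (2 * 2 ^ n) * (2 * U) := h6
      _ = 4 * a * U := by rw [ha]; ring
  -- T
  set T : ℕ := ⌊C * (p : ℝ) ^ (κ / 2)⌋₊ with hT
  have hTle : (T : ℝ) ≤ C * (p : ℝ) ^ (κ / 2) := Nat.floor_le (by positivity)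
  have hTdiv : ∀ m : ℕ, 1 ≤ m → m ≤ p → m.divisors.card ≤ T := by
    intro m hm hmp
    apply Nat.le_floor
    refine (hdiv m hm).trans ?_
    apply mul_le_mul_of_nonneg_left _ hC.le
    apply Real.rpow_le_rpow (by positivity) (by exact_mod_cast hmp) (by positivity)
  -- D
  set E : ℝ := N * (p : ℝ) ^ κ / X with hE
  have hE0 : 0 < E := by rw [hE]; positivity
  have hN1 : 1 ≤ N := by
    have := hNnat
    have h2 : 0 < 2 ^ n := by positivity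
    omega
  set D : ℝ := (2 * N / L + 2) * E with hD
  have hcel : ∀ j : ℕ, ((B.filter fun b => b.val / (2 * N) = j).card : ℝ) ≤ D :=
    haveI : NeZero p := ⟨hpne⟩
    hCEL p N L E B hL hN1 hcell
  have hLpos : (0 : ℝ) < L := by exact_mod_cast hL
  have hs2 : (1 : ℝ) ≤ (2 : ℝ) ^ s := one_le_pow₀ (by norm_num)
  have hDle : D ≤ 6 * (2 : ℝ) ^ s * N * P / X := by
    have hNL' : (N : ℝ) ≤ 2 * ((2 : ℝ) ^ s * L) := by exact_mod_cast hNL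
    have h3 : 2 * (N : ℝ) / L + 2 ≤ 6 * (2 : ℝ) ^ s := by
      have : 2 * (N : ℝ) / L ≤ 4 * (2 : ℝ) ^ s := by
        rw [div_le_iff₀ hLpos]
        nlinarith
      linarith
    calc D = (2 * N / L + 2) * E := rfl
      _ ≤ (6 * (2 : ℝ) ^ s) * E := mul_le_mul_of_nonneg_right h3 hE0.le
      _ = 6 * (2 : ℝ) ^ s * N * P / X := by rw [hE]; ring
  have hspq := hSPQ p χ hχ N U n T D B hUpos hUle (by omega) h2n3 hTdiv hcel
  set S : ℝ := ∑ z ∈ B ×ˢ B, ‖Gc χ N z.1 z.2‖ with hS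
  have hS0 : 0 ≤ S := Finset.sum_nonneg fun z _ => norm_nonneg _
  -- the size of (n+1)^7 T
  have hnlog : (n : ℝ) + 1 ≤ c * (p : ℝ) ^ (κ / 14) := by
    have hr : 1 ≤ (p : ℝ) ^ (κ / 14) := Real.one_le_rpow hp1.le (by positivity)
    have h3 : (n : ℝ) * Real.log 2 ≤ Real.log p := by
      have h4 : (2 : ℝ) ^ n ≤ p := by
        have h5 : 2 ^ n ≤ p := by
          calc 2 ^ n ≤ 8 ^ n := Nat.pow_le_pow_left (by norm_num) n
            _ ≤ p := h8n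
        exact_mod_cast h5
      have h6 := Real.log_le_log (by positivity) h4
      rwa [Real.log_pow] at h6
    have h7 : Real.log p ≤ (p : ℝ) ^ (κ / 14) / (κ / 14) := Real.log_le_rpow_div hp0'.le (by positivity)
    have h8 : (n : ℝ) ≤ 14 / (κ * Real.log 2) * (p : ℝ) ^ (κ / 14) := by
      have h9 : (n : ℝ) * Real.log 2 ≤ (p : ℝ) ^ (κ / 14) / (κ / 14) := h3.trans h7
      rw [← le_div_iff₀ hlog2] at h9
      refine h9.trans (le_of_eq ?_)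
      field_simp
    calc (n : ℝ) + 1 ≤ 14 / (κ * Real.log 2) * (p : ℝ) ^ (κ / 14) + (p : ℝ) ^ (κ / 14) := add_le_add h8 hr
      _ = c * (p : ℝ) ^ (κ / 14) := by rw [hc]; ring
  have hn7 : ((n : ℝ) + 1) ^ 7 ≤ c ^ 7 * (p : ℝ) ^ (κ / 2) := by
    have h3 : ((n : ℝ) + 1) ^ 7 ≤ (c * (p : ℝ) ^ (κ / 14)) ^ 7 := pow_le_pow_left₀ (by positivity) hnlog 7
    rw [mul_pow, ← Real.rpow_natCast ((p : ℝ) ^ (κ / 14)) 7, ← Real.rpow_mul hp0'.le] at h3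
    have e : κ / 14 * ((7 : ℕ) : ℝ) = κ / 2 := by push_cast; ring
    rwa [e] at h3
  set M : ℝ := ((n : ℝ) + 1) ^ 7 * T with hM
  have hM0 : 0 ≤ M := by positivity
  have hPh : (p : ℝ) ^ (κ / 2) * (p : ℝ) ^ (κ / 2) = P := by
    rw [← Real.rpow_add hp0']
    congr 1
    ring
  have hMle : M ≤ C * c ^ 7 * P := by
    calc M ≤ (c ^ 7 * (p : ℝ) ^ (κ / 2)) * (C * (p : ℝ) ^ (κ / 2)) :=
          mul_le_mul hn7 hTle (by positivity) (by positivity)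
      _ = C * c ^ 7 * ((p : ℝ) ^ (κ / 2) * (p : ℝ) ^ (κ / 2)) := by ring
      _ = C * c ^ 7 * P := by rw [hPh]
  have hKM : 56 * 10 ^ 12 * 4 ^ 11 * M ≤ P ^ 3 := by
    calc 56 * 10 ^ 12 * 4 ^ 11 * M = K * M := by rw [hK]
      _ ≤ K * (C * c ^ 7 * P) := mul_le_mul_of_nonneg_left hMle hKpos.le
      _ = (K * (C * c ^ 7)) * P := by ring
      _ ≤ P * P := mul_le_mul_of_nonneg_right (hQ0K.trans hPQ) hP0.le
      _ ≤ P * P * P := le_mul_of_one_le_right (by positivity) hP1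
      _ = P ^ 3 := by ring
  have hP9 : (p : ℝ) ^ (9 * κ) = P ^ 9 := by
    rw [hPdef, ← Real.rpow_natCast ((p : ℝ) ^ κ) 9, ← Real.rpow_mul hp0'.le]
    congr 1
    push_cast
    ring
  have hP10 : (p : ℝ) ^ (4 / 3 + 10 * κ) = q ^ 4 * P ^ 10 := by
    rw [hPdef, hqdef, ← Real.rpow_natCast ((p : ℝ) ^ κ) 10, ← Real.rpow_mul hp0'.le,
      ← Real.rpow_natCast ((p : ℝ) ^ (1 / 3 : ℝ)) 4, ← Real.rpow_mul hp0'.le, ← Real.rpow_add hp0']
    congr 1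
    push_cast
    ring
  rw [hP9] at h1
  rw [hP10] at h2
  have key := SPA_num p q P a N X Y ((2 : ℝ) ^ s) U D B.card M S hq hqp hP1 hapos haq hpa hNpos hX hY
    (by positivity) (by exact_mod_cast hUpos) hNU hDle hB (by positivity) hM0 hKM h1 h2
    (by
      rw [ha3]
      refine hspq.trans (le_of_eq ?_)
      rw [hM]
      ring)
  have hSle : S ≤ X * Y ^ 2 / P := le_of_pow_le_pow_left₀ (by norm_num) (by positivity) key
  have hssq := hSSQ p χ N A B β hAN hβ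
  set R : ℝ := ∑ n ∈ A, ‖∑ b ∈ B, β b * χ ((n : ZMod p) + b)‖ with hR
  have hhalf : ((p : ℝ) ^ (-(κ / 2))) ^ 2 = 1 / P := by
    rw [← Real.rpow_natCast, ← Real.rpow_mul hp0'.le, hPdef]
    have e : -(κ / 2) * ((2 : ℕ) : ℝ) = -κ := by push_cast; ring
    rw [e, Real.rpow_neg hp0'.le, one_div]
  have hfin : R ^ 2 ≤ (2 * (p : ℝ) ^ (-(κ / 2)) * (X * Y)) ^ 2 := by
    calc R ^ 2 ≤ (A.card : ℝ) * S := hssq
      _ ≤ (4 * X) * (X * Y ^ 2 / P) := mul_le_mul hA hSle hS0 (by positivity)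
      _ = (2 * (X * Y)) ^ 2 * (1 / P) := by ring
      _ = (2 * (p : ℝ) ^ (-(κ / 2)) * (X * Y)) ^ 2 := by rw [← hhalf]; ring
  have hpos : 0 ≤ (p : ℝ) ^ (-(κ / 2)) * (X * Y) := by positivity
  have h10 : R ≤ 2 * (p : ℝ) ^ (-(κ / 2)) * (X * Y) :=
    le_of_pow_le_pow_left₀ (by norm_num) (by positivity) hfin
  calc R ≤ 2 * (p : ℝ) ^ (-(κ / 2)) * (X * Y) := h10
    _ ≤ 10 * (p : ℝ) ^ (-(κ / 2)) * (X * Y) := by nlinarith

end Pool.Agent.PJ
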